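import Pool.Agent.TH730.PiAd.Cases

/-!
# The average finite pi-adic complexity is `n / 2 + O(1)`

Let `R` be a domain with `Z`-basis `1, π, ..., π ^ (d - 1)`, where either (i) `d = 2` and
`π ^ 2 = -N`, or (ii) `π ^ d = N`. Digits are `0, ..., N - 1`, and the size function is the one of
the problem in each case. Then the average of the finite π-adic complexity over the `N ^ n` words
of length `n` is `n / 2 + O(1)`, the implied constant being independent of `n`.

Proof. Lower bound: a pair `(f, g)` with `g` invertible modulo `π` determines the word, and there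
are at most `C X ^ (2 d)` pairs of size at most `X`. Upper bound: let `v` be the residue of the
word modulo `π ^ n` and `A` the set of all `f - π g v` in `R / π ^ n`, with `f` and `g` of size at
most `ρ`, about `N ^ (n / (2 d))`. If `Z` is the number of solutions of `f = π g v` of size at most
`2 ρ`, then `A` has at least `c N ^ n / Z` elements, it is symmetric and it generates the group, so
every residue, in particular `v`, is a sum of `O(Z)` elements of `A`. This gives `f, g` of size
`O(Z ρ)` with `v = f - π g v`, that is `(1 + π g) v = f`, where `1 + π g` is invertible modulo `π`.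
So the complexity is at most `n / 2 + O(1 + log Z)`, and the average of `Z` over all residues is
bounded.
-/

set_option autoImplicit false

open Finset

namespace Pool.Agent.Results.MP_cc6759_lc.PiAdicAverage

variable {R : Type} [CommRing R]

/-- The size function of case (i): `φ(u + v π) = log_N (u ^ 2 + N v ^ 2)`, where `u` and `v` are the
coordinates with respect to the basis `B = (1, π)`. -/
noncomputable def sizeI (N : ℕ) (B : Module.Basis (Fin 2) ℤ R) (x : R) : ℝ :=
  Real.logb N (((B.repr x 0 : ℤ) : ℝ) ^ 2 + N * ((B.repr x 1 : ℤ) : ℝ) ^ 2)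

/-- The size function of case (ii): `φ(Σ u_i π ^ i)` is the maximum of `d log_N |u_i| + i` over the
`i` with `u_i ≠ 0`, where `u_0, ..., u_(d-1)` are the coordinates with respect to the basis
`B = (1, π, ..., π ^ (d - 1))`. (The supremum of the empty set is `0`, so `φ(0) = 0`.) -/
noncomputable def sizeII (N d : ℕ) (B : Module.Basis (Fin d) ℤ R) (x : R) : ℝ :=
  sSup {y : ℝ | ∃ i : Fin d, B.repr x i ≠ 0 ∧
    y = d * Real.logb N |((B.repr x i : ℤ) : ℝ)| + (i : ℕ)}

/-- The partial sum `a_0 + a_1 π + ... + a_(k-1) π ^ (k-1)` of the π-adic number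
`a_0 + a_1 π + a_2 π ^ 2 + ...` of the infinite sequence `a`. -/
def partialSum (N : ℕ) (π : R) (a : ℕ → Fin N) (k : ℕ) : R :=
  ∑ i ∈ range k, ((a i : ℕ) : R) * π ^ i

/-- The π-adic number `α` of the infinite sequence `a` is the fraction `f / g`, where `g` is
invertible modulo `π`. Equality of `g α` and `f` in the π-adic completion of `R` means congruence
modulo `π ^ k` for every `k`. -/
def IsFraction (N : ℕ) (π : R) (a : ℕ → Fin N) (f g : R) : Prop :=
  (∃ h : R, π ∣ g * h - 1) ∧ ∀ k : ℕ, π ^ k ∣ g * partialSum N π a k - f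

/-- The set of the sizes `max (φ f) (φ g)` of the registers which output an infinite sequence `b`
extending the word `w`: the π-adic number of `b` is `f / g` with `g` invertible modulo `π`. -/
def sizes (N : ℕ) (π : R) (φ : R → ℝ) (n : ℕ) (w : Fin n → Fin N) : Set ℝ :=
  {x : ℝ | ∃ (b : ℕ → Fin N) (f g : R), (∀ i : Fin n, b i = w i) ∧ IsFraction N π b f g ∧
    x = max (φ f) (φ g)}

/-- The π-adic complexity of the finite sequence `w`: the least size of a register whose first `n`
outputs form `w` (the theorem says that the infimum is attained). -/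
noncomputable def complexity (N : ℕ) (π : R) (φ : R → ℝ) (n : ℕ) (w : Fin n → Fin N) : ℝ :=
  sInf (sizes N π φ n w)

/-- The average of the complexity over all `N ^ n` words of length `n`. -/
noncomputable def average (N : ℕ) (π : R) (φ : R → ℝ) (n : ℕ) : ℝ :=
  ((N : ℝ) ^ n)⁻¹ * ∑ w : Fin n → Fin N, complexity N π φ n w

open Pool.Agent.TH730.PiAd

lemma coprime_iff (π g : R) : (∃ h : R, π ∣ g * h - 1) ↔ IsCoprime g π := by
  constructor
  · rintro ⟨h, t, ht⟩
    exact ⟨h, -t, by linear_combination ht⟩
  · rintro ⟨h, t, ht⟩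
    exact ⟨h, -t, by linear_combination ht⟩

lemma isLeast [IsDomain R] (D : Sz R) (φ : R → ℝ)
    (hφ : ∀ x, φ x = D.d * Real.logb D.N (D.sz x)) (n : ℕ) (w : Fin n → Fin D.N) :
    IsLeast (sizes D.N D.p φ n w) (D.lam n (D.val w)) := by
  constructor
  · obtain ⟨f, g, h, hm⟩ := D.mu_spec n (D.val w)
    obtain ⟨b, hb⟩ := D.exists_seq f g h.1
    refine ⟨b, f, g, D.seq_unique w f g h b (hb n), ⟨(coprime_iff _ _).2 h.1, hb⟩, ?_⟩
    rw [hφ, hφ, D.max_logb h.ne]
    unfold Sz.lam
    rw [hm]
  · rintro x ⟨b, f, g, hb, ⟨hg, hdiv⟩, rfl⟩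
    have hval : partialSum D.N D.p b n = D.val w := by
      unfold partialSum Sz.val
      rw [← Fin.sum_univ_eq_sum_range (fun i => ((b i : ℕ) : R) * D.p ^ i) n]
      exact Finset.sum_congr rfl fun i _ => by rw [hb i]
    have h : D.Adm n (D.val w) f g := ⟨(coprime_iff _ _).1 hg, by
      have := hdiv n
      rwa [hval] at this⟩
    rw [hφ, hφ, D.max_logb h.ne]
    unfold Sz.lam
    apply mul_le_mul_of_nonneg_left _ D.d_pos.le
    apply Real.logb_le_logb_of_le D.N_one
    · linarith [D.one_le_mu n (D.val w)]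
    · exact D.mu_le h

lemma main [IsDomain R] (D : Sz R) (φ : R → ℝ)
    (hφ : ∀ x, φ x = D.d * Real.logb D.N (D.sz x)) : ∃ C : ℝ, ∀ n : ℕ,
    (∀ w : Fin n → Fin D.N, IsLeast (sizes D.N D.p φ n w) (complexity D.N D.p φ n w)) ∧
    |average D.N D.p φ n - (n : ℝ) / 2| ≤ C := by
  obtain ⟨K1, h1⟩ := D.lam_upper
  obtain ⟨K2, h2⟩ := D.lam_lower
  have hN0 : (0 : ℝ) < D.N := by linarith [D.N_real]
  refine ⟨max K1 K2, fun n => ?_⟩
  have hc : ∀ w : Fin n → Fin D.N, complexity D.N D.p φ n w = D.lam n (D.val w) :=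
    fun w => (isLeast D φ hφ n w).csInf_eq
  refine ⟨fun w => by rw [hc w]; exact isLeast D φ hφ n w, ?_⟩
  have hq0 : (0 : ℝ) < (D.N : ℝ) ^ n := by positivity
  have havg : average D.N D.p φ n = ((D.N : ℝ) ^ n)⁻¹ *
      ∑ w : Fin n → Fin D.N, D.lam n (D.val w) := by
    unfold average
    congr 1
    exact Finset.sum_congr rfl fun w _ => hc w
  have hu : average D.N D.p φ n ≤ (n : ℝ) / 2 + K1 := by
    rw [havg, ← div_eq_inv_mul, div_le_iff₀ hq0]
    exact h1 n
  have hl : (n : ℝ) / 2 - K2 ≤ average D.N D.p φ n := by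
    rw [havg, ← div_eq_inv_mul, le_div_iff₀ hq0]
    exact h2 n
  rw [abs_le]
  constructor
  · have := le_max_right K1 K2
    linarith
  · have := le_max_left K1 K2
    linarith

/-- In case (i) (`π ^ 2 = -N`) and in case (ii) (`π ^ d = N`), for every `N ≥ 2` and every domain
`R` with `Z`-basis `1, π, ..., π ^ (d - 1)`: the minimum in the definition of the π-adic complexity
of a finite sequence is attained, and the average of the complexity over all words of length `n`
equals `n / 2` up to an error bounded independently of `n`. -/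
theorem result :
    (∀ (N : ℕ) (R : Type) (_ : CommRing R) (_ : IsDomain R) (π : R)
      (B : Module.Basis (Fin 2) ℤ R), 2 ≤ N → (∀ i, B i = π ^ (i : ℕ)) → π ^ 2 = -(N : R) →
      ∃ C : ℝ, ∀ n : ℕ,
        (∀ w : Fin n → Fin N, IsLeast (sizes N π (sizeI N B) n w)
          (complexity N π (sizeI N B) n w)) ∧
        |average N π (sizeI N B) n - (n : ℝ) / 2| ≤ C) ∧
    (∀ (N d : ℕ) (R : Type) (_ : CommRing R) (_ : IsDomain R) (π : R)
      (B : Module.Basis (Fin d) ℤ R), 2 ≤ N → 1 ≤ d → (∀ i, B i = π ^ (i : ℕ)) →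
      π ^ d = (N : R) →
      ∃ C : ℝ, ∀ n : ℕ,
        (∀ w : Fin n → Fin N, IsLeast (sizes N π (sizeII N d B) n w)
          (complexity N π (sizeII N d B) n w)) ∧
        |average N π (sizeII N d B) n - (n : ℝ) / 2| ≤ C) := by
  constructor
  · intro N R _ _ π B hN hB hπ
    exact main (preI N π B hN hB hπ).toSz (sizeI N B) (fun x => sizeI_eq N B x)
  · intro N d R _ _ π B hN hd hB hπ
    exact main (preII N d π B hN hd hB hπ).toSz (sizeII N d B) (fun x => sizeII_eq N d hN hd B x)

end Pool.Agent.Results.MP_cc6759_lc.PiAdicAverage
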